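import Pool.Agent.MUL.FT

/-! Randomised real computation trees (with divisions and sign tests) that decide whether
`per_n(x) = 0`, or whether `y = per_n(x)`, or membership in a set whose boundary contains one of
these hypersurfaces, have depth at least of the order `n² log n`, even if they have to be right
only on a nonempty open set that meets the hypersurface. -/

namespace Pool.Agent.Results.MP_9ce8c8_lc.PermanentDecision

open MvPolynomial
open Pool.Agent.H10.PerSL Pool.Agent.MUL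

theorem result (c : ℝ) (hc : c < 1 / 72) :
    ∃ n₀ : ℕ, ∀ n ≥ n₀,
      (∀ U A : Set (Fin n × Fin n → ℝ),
        (U = Set.univ ∨ IsOpen U ∧ ∃ z ∈ U, eval z (perPoly n ℝ) = 0 ∧
          ∃ q, eval z (pderiv q (perPoly n ℝ)) ≠ 0) →
        (A = {z | eval z (perPoly n ℝ) = 0} ∨
          ∀ z ∈ U, eval z (perPoly n ℝ) = 0 → z ∈ frontier A) →
        ∀ (Ω : Type) [Fintype Ω] (w : Ω → ℝ) (T : Ω → CTree (Fin n × Fin n)) (D : ℕ),
        DecidesOn w T A U → (∀ ω, (T ω).depth ≤ D) →
        c * (n : ℝ) ^ 2 * Real.logb 2 n ≤ D) ∧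
      (∀ U A : Set (Option (Fin n × Fin n) → ℝ),
        (IsOpen U ∧ ∃ z ∈ U, eval z (gr (perPoly n ℝ)) = 0) →
        (A = {z | eval z (gr (perPoly n ℝ)) = 0} ∨
          ∀ z ∈ U, eval z (gr (perPoly n ℝ)) = 0 → z ∈ frontier A) →
        ∀ (Ω : Type) [Fintype Ω] (w : Ω → ℝ) (T : Ω → CTree (Option (Fin n × Fin n))) (D : ℕ),
        DecidesOn w T A U → (∀ ω, (T ω).depth ≤ D) →
        c * (n : ℝ) ^ 2 * Real.logb 2 n ≤ D) := by
  obtain ⟨n₀, h⟩ := main.{0} (3 * c) (by linarith)
  refine ⟨max n₀ 1, fun n hn => ?_⟩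
  have hn1 : 0 < n := (le_max_right _ _).trans hn
  obtain ⟨h1, h2⟩ := h n ((le_max_left _ _).trans hn)
  refine ⟨?_, ?_⟩
  · intro U A hU hA Ω _ w T D hT hD
    have := tree_per hn1 (fun P r hP hd hr => h1 ℝ P r hP hd hr) U A hU hA w T D hT hD
    linarith
  · intro U A hU hA Ω _ w T D hT hD
    have := tree_graph (fun P r hP hd hr => h2 ℝ P r hP hd hr) U A hU hA w T D hT hD
    linarith

end Pool.Agent.Results.MP_9ce8c8_lc.PermanentDecision
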