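import Pool.Agent.MUL.FN

/-! Every nonzero multiple of the permanent `per_n` has approximative complexity at least of the
order `n² log n`, even if only the multiplications are counted. -/

namespace Pool.Agent.Results.MP_9ce8c8_lc.PermanentMultiples

open MvPolynomial
open Pool.Agent.H53.AC Pool.Agent.H10.PerSL Pool.Agent.MUL

universe u

theorem result (c : ℝ) (hc : c < 1 / 24) :
    ∃ n₀ : ℕ, ∀ n ≥ n₀, ∀ (k : Type u) [Field k] [CharZero k]
      (P : MvPolynomial (Fin n × Fin n) k) (r : ℕ),
      P ≠ 0 → perPoly n k ∣ P → (BorderComplexityLE P r ∨ BorderReach P r) →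
      c * (n : ℝ) ^ 2 * Real.logb 2 n ≤ r := by
  obtain ⟨n₀, h⟩ := main c hc
  exact ⟨n₀, fun n hn k _ _ P r hP hd hr => (h n hn).1 k P r hP hd (hr.elim br_of_border id)⟩

end Pool.Agent.Results.MP_9ce8c8_lc.PermanentMultiples
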