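import Pool.Agent.TSD.Res

/-!
MP_9ce8c8_lc: exact and approximative determinantal representations of the permanent with one
independent rescaling symmetry.
-/

set_option autoImplicit false

namespace Pool.Agent.Results.MP_9ce8c8_lc.TorusSymmetric

open MvPolynomial Finset
open Pool.Agent.TSD

universe u

theorem result (k : Type u) [Field k] (h2 : (2 : k) ≠ 0) (n : ℕ) (hn : 3 ≤ n) :
    (∀ (c N : ℕ) (κ : Fin n → Fin c), SymDetLE k κ N ∨ SymBorderDetLE k κ N →
      1 + ∑ m ∈ Ico 1 n, n.choose m / W κ m ≤ N ∧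
      ∏ j, (1 + #{i | κ i = j}) ≤ ((n + 1) * N) ^ 2 ∧
      (Function.Injective κ → 2 ^ n - 1 ≤ N)) ∧
    SymDetLE k (id : Fin n → Fin n) (2 ^ n - 1) ∧
    SymBorderDetLE k (id : Fin n → Fin n) (2 ^ n - 1) ∧
    ∃ M : Matrix (Fin (2 ^ n - 1)) (Fin (2 ^ n - 1)) (MvPolynomial (Fin n × Fin n) k),
      (∀ a b, (M a b).totalDegree ≤ 1) ∧ M.det = perP k n ∧
      ∀ (L : Type u) [Field L] [Algebra k L] (s t : Fin n → L), (∀ i, s i ≠ 0) →
        (∀ j, t j ≠ 0) → ∃ P Q : Matrix (Fin (2 ^ n - 1)) (Fin (2 ^ n - 1)) L,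
        IsUnit P.det ∧ IsUnit Q.det ∧
        (M.map (MvPolynomial.map (algebraMap k L))).map (rescale id s t) * Q.map C =
          P.map C * M.map (MvPolynomial.map (algebraMap k L)) := by
  obtain ⟨M, hM, hdet, hR, hall⟩ := gnF k (show 1 ≤ n by omega)
  have h1 : SymDetLE k (id : Fin n → Fin n) (2 ^ n - 1) := ⟨M, hM, hdet, hR⟩
  exact ⟨fun c N κ h => res_lower k h2 n hn c N κ h, h1, symBorder_of_exact k _ _ h1,
    M, hM, hdet, hall⟩

end Pool.Agent.Results.MP_9ce8c8_lc.TorusSymmetric
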