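import Pool.Agent.ZTD.Res

/-! Zero tests for the permanent by determinants and ranks need matrices of size at least
`n ^ 3 / (10 ^ 7 * (log₂ n) ^ 3)`: this is a lower bound for the exact and the approximative
determinantal size of every nonzero polynomial that vanishes at all zeros of `per_n` (or on the
graph `y = per_n(x)`), and for the size of matrices of affine linear forms whose ranks at a point
determine whether `per_n(x) = 0` (or `y = per_n(x)`). -/

namespace Pool.Agent.Results.MP_9ce8c8_lc.ZeroTestDeterminants

open Pool.Agent.H10.PerSL (perPoly)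
open Pool.Agent.MUL (gr)
open Pool.Agent.ZTD

universe u

theorem result (n : ℕ) (hn : 2 ≤ n) (k : Type u) [Field k] [CharZero k] (s : ℕ)
    (h : (DetTest (perPoly n k) s ∨ RankTest (perPoly n k) s) ∨
      (DetTest (gr (perPoly n k)) s ∨ RankTest (gr (perPoly n k)) s)) :
    (n : ℝ) ^ 3 / (10 ^ 7 * (Real.logb 2 n) ^ 3) ≤ s :=
  tests hn k s h

end Pool.Agent.Results.MP_9ce8c8_lc.ZeroTestDeterminants
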